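import Mathlib
import Pool.Agent.H.MP_26c4ab_lc.Main

set_option autoImplicit false

namespace Pool.Agent.H.MP_31068f_lc

open Filter Pool.Agent.H.MP_26c4ab_lc

noncomputable def umul (F G : Ultrafilter ℕ+) : Ultrafilter ℕ+ := F.bind fun n => G.map (n * ·)

def MDvd (F G : Ultrafilter ℕ+) : Prop := ∃ H1 H2, G = umul (umul H1 F) H2

def InL (F : Ultrafilter ℕ+) : Prop := ∃ n, {x : ℕ+ | (x : ℕ).primeFactorsList.length = n} ∈ F

def MinimalFor (ρ : Ultrafilter ℕ+ → Ultrafilter ℕ+ → Prop) (F : Ultrafilter ℕ+) : Prop :=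
  F ≠ pure 1 ∧ ∀ G, ρ G F → G = pure 1 ∨ (ρ G F ∧ ρ F G)

lemma mem_bind {α β : Type} (F : Ultrafilter α) (m : α → Ultrafilter β) (A : Set β) :
    A ∈ F.bind m ↔ {n | A ∈ m n} ∈ F := Filter.mem_bind'

lemma mem_umul (F G : Ultrafilter ℕ+) (A : Set ℕ+) :
    A ∈ umul F G ↔ {n | {m | n * m ∈ A} ∈ G} ∈ F := mem_bind _ _ _

lemma umul_one (F : Ultrafilter ℕ+) : umul F (pure 1) = F := by
  ext A; rw [mem_umul]; simp

lemma one_umul (F : Ultrafilter ℕ+) : umul (pure 1) F = F := by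
  ext A; rw [mem_umul]; simp

lemma eq_one_iff (F : Ultrafilter ℕ+) : F = pure 1 ↔ {1} ∈ F :=
  ⟨fun h => h ▸ rfl, fun h => Ultrafilter.eq_of_le (le_pure_iff.2 h)⟩

lemma umul_eq_one {F G : Ultrafilter ℕ+} (h : umul F G = pure 1) : G = pure 1 := by
  rw [eq_one_iff, mem_umul] at h
  obtain ⟨n, hn⟩ := F.nonempty_of_mem h
  rw [eq_one_iff]
  refine mem_of_superset hn fun m hm => ?_
  have : (n : ℕ) * m = 1 := congrArg PNat.val hm
  exact PNat.eq (Nat.eq_one_of_mul_eq_one_left this)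

noncomputable def q (n : ℕ) : ℕ+ := ⟨Nat.nth Nat.Prime n, (Nat.prime_nth_prime n).pos⟩

lemma q_prime (n : ℕ) : (q n : ℕ).Prime := Nat.prime_nth_prime n

lemma le_q (n : ℕ) : n ≤ q n := (Nat.nth_strictMono Nat.infinite_setOf_prime).le_apply

noncomputable def ι (x : ℕ) : ℕ := (Nat.count Nat.Prime x).unpair.1

lemma ι_q (i m : ℕ) : ι (q (Nat.pair i m)) = i := by
  show (Nat.count Nat.Prime (Nat.nth Nat.Prime _)).unpair.1 = i
  rw [Nat.count_nth_of_infinite Nat.infinite_setOf_prime, Nat.unpair_pair]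

noncomputable def FF : Ultrafilter ℕ+ := (hyperfilter ℕ).map q
noncomputable def HH (i : ℕ) : Ultrafilter ℕ+ := (hyperfilter ℕ).map fun m => q (Nat.pair i m)
noncomputable def GG : Ultrafilter ℕ+ := (hyperfilter ℕ).bind fun i => umul FF (HH i)

def S (i : ℕ) : Set ℕ+ := {n | ∃ x y : ℕ, x.Prime ∧ y.Prime ∧ x < y ∧ (n : ℕ) = x * y ∧ i < ι y ∧ ι y < x}

lemma S_mem (i : ℕ) : S i ∈ GG := by
  rw [GG, mem_bind]
  refine Nat.hyperfilter_le_atTop ((eventually_gt_atTop i).mono fun j hj => ?_)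
  show S i ∈ umul FF (HH j)
  rw [mem_umul]
  refine Nat.hyperfilter_le_atTop ((eventually_gt_atTop j).mono fun k hk => ?_)
  refine Nat.hyperfilter_le_atTop ((eventually_gt_atTop (q k : ℕ)).mono fun m hm => ?_)
  exact ⟨q k, q (Nat.pair j m), q_prime _, q_prime _,
    hm.trans_le ((Nat.right_le_pair j m).trans (le_q _)), rfl, by rwa [ι_q],
    by rw [ι_q]; exact hk.trans_le (le_q k)⟩

lemma FF_le : FE FF GG := by
  intro B hB
  rw [GG, mem_bind] at hB
  obtain ⟨i, hi⟩ := Ultrafilter.nonempty_of_mem hB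
  refine ⟨_, (mem_umul _ _ _).1 hi, fun F hF => ?_⟩
  have h0 : ∀ᶠ k in (HH i : Filter ℕ+), ∀ x ∈ F, x * k ∈ B :=
    (eventually_all_finset F).2 fun x hx => hF hx
  obtain ⟨k, hk⟩ := h0.exists
  exact ⟨k, fun x hx => by rw [mul_comm]; exact hk x hx⟩

lemma split {u b : ℕ+} {i : ℕ} (hu : u ≠ 1) (hb : u < b) (h : u * b ∈ S i) : i < ι b ∧ ι b < u := by
  obtain ⟨x, y, hx, hy, hxy, e, h1, h2⟩ := h
  rw [PNat.mul_coe] at e
  have hb' : (u : ℕ) < b := hb
  have : y ∣ (u : ℕ) * b := e ▸ dvd_mul_left _ _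
  rcases (hy.dvd_mul).1 this with h | ⟨c, hc⟩
  · have := Nat.le_of_dvd u.pos h
    nlinarith [hy.pos]
  · rw [hc, ← mul_assoc, mul_right_comm] at e
    have e2 := Nat.eq_of_mul_eq_mul_right hy.pos e
    have e3 : (u : ℕ) = x := ((Nat.dvd_prime hx).1 ⟨c, e2.symm⟩).resolve_left fun h => hu (PNat.eq h)
    have : c = 1 := by rw [e3] at e2; nlinarith [hx.pos]
    rw [hc, this, mul_one, e3]; exact ⟨h1, h2⟩

lemma irred {U W : Ultrafilter ℕ+} (h : GG = umul U W) : U = pure 1 ∨ W = pure 1 := by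
  by_contra hc
  push Not at hc
  have hU : ({1}ᶜ : Set ℕ+) ∈ U := Ultrafilter.compl_mem_iff_notMem.2 fun h => hc.1 ((eq_one_iff U).2 h)
  have hS : ∀ i, ∃ u, u ≠ 1 ∧ {m | u * m ∈ S i} ∈ W := fun i => by
    have := S_mem i
    rw [h, mem_umul] at this
    exact U.nonempty_of_mem (inter_mem hU this)
  rcases W.le_cofinite_or_eq_pure with hW | ⟨w, rfl⟩
  · have hgt : ∀ u : ℕ+, {b | u < b} ∈ W := fun u => hW (by
      rw [mem_cofinite]; exact (Set.finite_Iic u).subset fun a ha => not_lt.1 (show ¬ u < a from ha))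
    obtain ⟨u, hu, h1⟩ := hS 0
    obtain ⟨v, hv, h2⟩ := hS u
    obtain ⟨b, ⟨b1, b2⟩, b3, b4⟩ := W.nonempty_of_mem
      (inter_mem (inter_mem h1 (hgt u)) (inter_mem h2 (hgt v)))
    have := (split hu b2 b1).2
    have := (split hv b4 b3).1
    omega
  · obtain ⟨u, -, x, y, hx, hy, hxy, e, h1, h2⟩ := hS w
    have hw : (w : ℕ) ≠ 1 := fun h => hc.2 (by rw [show w = 1 from PNat.eq h])
    have hp := Nat.minFac_prime hw
    have hl := Nat.minFac_le w.pos
    have : (w : ℕ).minFac ∣ x * y := e ▸ (Nat.minFac_dvd _).mul_left _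
    rcases (hp.dvd_mul).1 this with h | h
    · have := (Nat.prime_dvd_prime_iff_eq hp hx).1 h; omega
    · have := (Nat.prime_dvd_prime_iff_eq hp hy).1 h; omega

lemma mdvd_GG {H : Ultrafilter ℕ+} (h : MDvd H GG) : H = pure 1 ∨ H = GG := by
  obtain ⟨H1, H2, h⟩ := h
  rcases irred h with h1 | rfl
  · exact Or.inl (umul_eq_one h1)
  · rw [umul_one] at h
    rcases irred h with rfl | h1
    · rw [one_umul] at h; exact Or.inr h.symm
    · exact Or.inl h1

lemma FF_prime : {x : ℕ+ | (x : ℕ).Prime} ∈ FF :=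
  (Eventually.of_forall q_prime : ∀ᶠ n in (hyperfilter ℕ : Filter ℕ), (q n : ℕ).Prime)

lemma FF_ne_one : FF ≠ pure 1 := fun h => by
  have := FF_prime
  rw [h] at this
  exact Nat.not_prime_one this

lemma not_GG_le : ¬ FE GG FF := by
  intro h
  obtain ⟨A, hA, h2⟩ := h _ FF_prime
  obtain ⟨n, hn, x, y, hx, hy, -, e, -⟩ := GG.nonempty_of_mem (inter_mem hA (S_mem 0))
  obtain ⟨k, hk⟩ := h2 {n} (by simpa using hn)
  have : ((k : ℕ) * n).Prime := hk n (by simp)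
  rw [e, ← mul_assoc] at this
  exact Nat.not_prime_mul (fun h => hx.ne_one (Nat.eq_one_of_mul_eq_one_left h)) hy.ne_one this

lemma FF_L : InL FF := ⟨1, mem_of_superset FF_prime fun x hx => by
  show (x : ℕ).primeFactorsList.length = 1
  rw [Nat.primeFactorsList_prime hx]; rfl⟩

lemma GG_L : InL GG := ⟨2, mem_of_superset (S_mem 0) fun n ⟨x, y, hx, hy, _, e, _⟩ => by
  show (n : ℕ).primeFactorsList.length = 2
  rw [e, (Nat.perm_primeFactorsList_mul hx.ne_zero hy.ne_zero).length_eq,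
    Nat.primeFactorsList_prime hx, Nat.primeFactorsList_prime hy]; rfl⟩

theorem not_mdvd : ¬ MDvd FF GG := fun h => (mdvd_GG h).elim FF_ne_one fun e =>
  not_GG_le (by rw [e]; exact FE.refl _)

theorem GG_min : MinimalFor MDvd GG := by
  refine ⟨fun h => ?_, fun H h => (mdvd_GG h).imp id fun e : H = GG => ⟨h, by subst e; exact h⟩⟩
  have := S_mem 0
  rw [h] at this
  obtain ⟨x, y, hx, -, -, e, -⟩ := this
  exact hx.ne_one (Nat.eq_one_of_mul_eq_one_right e.symm)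

theorem GG_not_min : ¬ MinimalFor FE GG := fun h =>
  (h.2 FF FF_le).elim FF_ne_one fun h => not_GG_le h.2

end Pool.Agent.H.MP_31068f_lc
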